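import Pool.Agent.Helper99.SZ.Stmts3
import Pool.Agent.Helper61.SZ.PDL

set_option autoImplicit false

/-! The determinant, with groups of columns and a factor. -/

namespace Pool.Helper99.SZ

open NumberField Finset

/-- at most `s + 1` of the numbers are at most `s` -/
theorem pdg3_num {α : Type*} [DecidableEq α] (f : α → ℕ) : ∀ (n : ℕ) (J : Finset α), J.card = n →
    (∀ s, (J.filter (fun j => f j ≤ s)).card ≤ s + 1) → n * (n - 1) ≤ 2 * ∑ j ∈ J, f j := by
  intro n
  induction n with
  | zero => intro J _ _; simp
  | succ n ih =>
    intro J hJ hs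
    have hex : ∃ j ∈ J, n ≤ f j := by
      by_contra hcon
      push Not at hcon
      have hn : 0 < n := by
        have : J.Nonempty := by
          rw [← Finset.card_pos]
          omega
        obtain ⟨j, hj⟩ := this
        have := hcon j hj
        omega
      have h1 := hs (n - 1)
      rw [Finset.filter_true_of_mem (fun j hj => by have := hcon j hj; omega), hJ] at h1
      omega
    obtain ⟨j, hj, hfj⟩ := hex
    have hc : (J.erase j).card = n := by
      rw [Finset.card_erase_of_mem hj, hJ]
      rfl
    have h1 := ih (J.erase j) hc (fun s => le_trans (Finset.card_le_card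
      (Finset.filter_subset_filter _ (Finset.erase_subset _ _))) (hs s))
    rw [← Finset.add_sum_erase _ _ hj, Nat.add_sub_cancel]
    have h2 : (n + 1) * n = n * (n - 1) + 2 * n := by
      cases n with
      | zero => rfl
      | succ m => rw [Nat.add_sub_cancel]; ring
    rw [h2]
    omega

theorem st_PDG3 (hDVB : ST_DVB) : ST_PDG3 := by
  intro L _ _ P hP hP0 ι β _ _ _ _ M K T t jj grp b0 W hb0 hW hnum hT hM
  obtain ⟨d0, dmono, dadd, dneg, dmul, -, -, -, -⟩ := hDVB L P hP hP0
  choose s c a y ω err hω hc hyW herr hMr using hM
  have hint : ∀ n : ℤ, Dv P 0 ((n : ℤ) : L) := fun n => by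
    have := d0 (n : 𝓞 L)
    simpa using this
  let col : ∀ j, Option (Fin (s j)) → ι → L := fun j o r =>
    match o with
    | none => err j r
    | some k => (ω j * c j k) * ((y j k r : ℤ) : L)
  have hcol : ∀ j, (fun r => M r j) = ∑ o, col j o := by
    intro j
    ext r
    rw [Finset.sum_apply, Fintype.sum_option, hMr j r, mul_sum, add_comm]
    congr 1
    refine sum_congr rfl fun k _ => ?_
    simp only [col]
    ring
  have hdet : M.det = ∑ φ : (∀ j, Option (Fin (s j))),
      Matrix.det (Matrix.of fun j r => col j (φ j) r) := by
    rw [← Matrix.det_transpose]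
    have h1 : M.transpose.det = Matrix.detRowAlternating (fun j => ∑ o, col j o) := by
      change Matrix.detRowAlternating (fun j => M.transpose j) = _
      congr 1
      funext j
      exact hcol j
    rw [h1]
    exact (Matrix.detRowAlternating (n := ι) (R := L)).toMultilinearMap.map_sum col
  rw [hdet]
  refine pdl_sum hP dadd _ _ _ fun φ _ => ?_
  set A : Matrix ι ι L := Matrix.of fun j r => col j (φ j) r with hA
  let τ : ι → ℕ := fun j => match φ j with
    | none => T
    | some k => jj * a j k
  let α : ι → ℕ := fun j => match φ j with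
    | none => 0
    | some k => a j k
  have hent : ∀ j r, Dv P (τ j) (A j r) := by
    intro j r
    simp only [hA, Matrix.of_apply, col, τ]
    cases φ j with
    | none => exact herr j r
    | some k =>
      have h1 := dmul 0 (jj * a j k) _ _ (hω j) (hc j k)
      have h2 := dmul _ 0 _ _ h1 (hint (y j k r))
      simpa using h2
  have hmain := pdl_det hP d0 dadd dneg dmul A τ hent
  let E : Finset ι := univ.filter fun j => φ j = none
  let I : Finset ι := univ.filter fun j => φ j ≠ none
  let J : β → Finset ι := fun b => I.filter fun j => grp j = b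
  have hEI : E.card + I.card = Fintype.card ι := by
    have := Finset.card_filter_add_card_filter_not (s := (univ : Finset ι)) (fun j => φ j = none)
    rw [← Finset.card_univ]
    exact this
  have hJs : ∀ g : ι → ℕ, ∑ b, ∑ j ∈ J b, g j = ∑ j ∈ I, g j := fun g =>
    Finset.sum_fiberwise I grp g
  have hJc : ∑ b, (J b).card = I.card := by
    have := hJs (fun _ => 1)
    simpa using this
  by_cases h0 : A.det = 0
  · rw [h0]
    exact pdl_zero hP (jj * t)
  refine dmono (jj * t) _ _ ?_ hmain
  have hE : E.card * T ≤ ∑ j, τ j := by
    calc E.card * T = ∑ j ∈ E, T := by rw [sum_const, smul_eq_mul]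
      _ ≤ ∑ j ∈ E, τ j := by
          refine sum_le_sum fun j hj => ?_
          have := (mem_filter.1 hj).2
          simp only [τ, this]
          exact le_rfl
      _ ≤ ∑ j, τ j := sum_le_sum_of_subset (subset_univ _)
  by_cases h1 : Fintype.card ι ≤ 2 * E.card
  · have h2 : Fintype.card ι * T ≤ 2 * E.card * T := Nat.mul_le_mul_right T h1
    have h3 : 2 * E.card * T = 2 * (E.card * T) := by ring
    omega
  · rw [not_le] at h1
    have h2 := hnum (fun b => (J b).card) (by
      rw [hJc]
      omega)
    rw [hJc] at h2
    have h3 : ∀ b, (J b).card * ((J b).card - 1) ≤ 2 * ∑ j ∈ J b, (b0 j + α j) := by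
      intro b
      apply pdg3_num (fun j => b0 j + α j) _ (J b) rfl
      intro s'
      by_contra hcon
      rw [not_le] at hcon
      apply h0
      refine pdl_dep A (W b s') ((J b).filter (fun j => b0 j + α j ≤ s'))
        (lt_of_le_of_lt (hW b s') hcon)
        (fun j => match φ j with
          | none => 0
          | some k => ω j * c j k)
        (fun j => match φ j with
          | none => 0
          | some k => y j k) ?_ ?_
      · intro j hj
        obtain ⟨hj1, hj2⟩ := mem_filter.1 hj
        obtain ⟨hj3, hj4⟩ := mem_filter.1 hj1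
        have hj5 := (mem_filter.1 hj3).2
        cases hφ : φ j with
        | none => exact (hj5 hφ).elim
        | some k =>
          simp only [α, hφ] at hj2
          have := hyW j k s' hj2
          rw [hj4] at this
          exact this
      · intro j hj r
        obtain ⟨hj1, hj2⟩ := mem_filter.1 hj
        obtain ⟨hj3, hj4⟩ := mem_filter.1 hj1
        have hj5 := (mem_filter.1 hj3).2
        cases hφ : φ j with
        | none => exact (hj5 hφ).elim
        | some k => simp only [hA, Matrix.of_apply, hφ, col]
    have h4 : ∑ b, (J b).card * ((J b).card - 1) ≤ 2 * ∑ j ∈ I, (b0 j + α j) := by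
      rw [← hJs, Finset.mul_sum]
      exact Finset.sum_le_sum fun b _ => h3 b
    have h5 : ∑ j ∈ I, (b0 j + α j) ≤ K * I.card + ∑ j ∈ I, α j := by
      rw [Finset.sum_add_distrib]
      apply Nat.add_le_add_right
      calc ∑ j ∈ I, b0 j ≤ ∑ j ∈ I, K := Finset.sum_le_sum fun j _ => hb0 j
        _ = K * I.card := by rw [Finset.sum_const, smul_eq_mul, mul_comm]
    have h6 : 2 * (K * I.card) = 2 * K * I.card := by ring
    have h7 : t ≤ ∑ j ∈ I, α j := by omega
    calc jj * t ≤ jj * ∑ j ∈ I, α j := Nat.mul_le_mul_left jj h7
      _ = ∑ j ∈ I, jj * α j := Finset.mul_sum _ _ _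
      _ ≤ ∑ j ∈ I, τ j := by
          refine sum_le_sum fun j hj => ?_
          have hj5 := (mem_filter.1 hj).2
          cases hφ : φ j with
          | none => exact (hj5 hφ).elim
          | some k => simp only [τ, α, hφ, le_refl]
      _ ≤ ∑ j, τ j := sum_le_sum_of_subset (subset_univ _)

end Pool.Helper99.SZ
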